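import Pool.Agent.Helper94.PB.VEXT
import Pool.Agent.Helper42.PW.Goals2
import Pool.Agent.Helper32.RD.VAL
import Pool.Agent.Helper49.RL.LIFT

/-!
# Project W (MP_fc6b1e_nt): V_EXTW, existence of `TauW` for every local class
-/

set_option autoImplicit false
set_option linter.unusedSectionVars false

namespace Pool.Agent.Helper87.PW

open NumberField Polynomial Module IsDedekindDomain Pool.Agent.Helper51.SigLeo
open Pool.Agent.Helper51.RP Pool.Agent.Helper42.RD Pool.Agent.Helper42.PP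
open Pool.Agent.Helper42.PP1 (SitW)
open Pool.Agent.Helper42.PB Pool.Agent.Helper42.PW
open Pool.Agent.Helper94.PB
open Pool.Agent.Helper40.RS (bel gw bel_smul lies conj_of_bel free_gw absNorm_free val_smul efg)
open Pool.Agent.Helper40.RD (bel_of_above ordW valW)
open Pool.Agent.Helper64.PP (exists_close locSig_mul_pow)
open Pool.Agent.Helper8.LE (free_ord)

section loc

variable {p : ℕ} [hp : Fact p.Prime]

/-- Transport of `Cl` by an automorphism. -/
theorem cl_conj {K M : Type} [Field K] [Field M] [NumberField M] [Algebra K M] (g : M ≃ₐ[K] M)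
    {w w₀ : HeightOneSpectrum (𝓞 M)} (h : ∀ y : M, w.valuation M (g y) = w₀.valuation M y)
    {x : M} (hx : Cl p w x) : Cl p w₀ (g.symm x) := by
  have e1 : w₀.valuation M (g.symm x - 1) = w.valuation M (x - 1) := by
    rw [← h, map_sub, map_one, AlgEquiv.apply_symm_apply]
  have e2 : w₀.valuation M (p : M) = w.valuation M (p : M) := by
    rw [← h, map_natCast]
  refine ⟨?_, ?_⟩
  · rw [e1]
    exact hx.1
  · rw [e1, e2]
    exact hx.2

/-- The local norms at conjugate primes. -/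
theorem nm_conj (h4 : N_GRP) (h5 : N_TRN) {F E : Type} [Field F] [Field E] [NumberField E]
    [Algebra F E] {ε α : E} (hε : IsPrimitiveRoot ε p) (hα0 : α ≠ 0) (hα : OmType p F ε α)
    (g : E ≃ₐ[F] E) {W W' : HeightOneSpectrum (𝓞 E)}
    (hW : ∀ y : E, W'.valuation E (g y) = W.valuation E y) (x : E) :
    NmAt p W' α (g x) ↔ NmAt p W α x := by
  have hpp := hp.out
  have hp0 : p ≠ 0 := hpp.ne_zero
  obtain ⟨n, C, hn, hC⟩ := hα g
  have hcop : n.Coprime p := by
    rw [Nat.coprime_comm, hpp.coprime_iff_not_dvd]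
    rintro ⟨m, rfl⟩
    rw [pow_mul, hε.pow_eq_one, one_pow] at hn
    have h1 : ε = 1 := by
      apply g.injective
      rw [hn, map_one]
    have h2 := hε
    rw [h1] at h2
    exact hpp.one_lt.ne' (h2.unique IsPrimitiveRoot.one)
  have hC0 : C ≠ 0 := by
    rintro rfl
    rw [zero_pow hp0, mul_zero] at hC
    exact hα0 ((map_eq_zero g).1 hC)
  have h1 := (h5 p E E (g : E ≃+* E) W W' hW α x).2.1
  have h2 := (((h4 p E W').2.2.2.2.2.2 α hα0).2.2.2.2 n C hcop hC0).1 (g x)
  have e1 : (g : E ≃+* E) α = α ^ n * C ^ p := hC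
  have e2 : (g : E ≃+* E) x = g x := rfl
  rw [e1, e2] at h1
  exact h2.symm.trans h1

end loc

section lift

variable {K A C : Type} [Field K] [NumberField K] [Field A] [NumberField A] [Field C]
  [NumberField C] [Algebra K A] [Algebra A C] [Algebra K C] [IsScalarTower K A C]
  [IsGalois K A] [IsGalois K C]

/-- The primes above conjugate primes. -/
theorem bel_lift (W : HeightOneSpectrum (𝓞 C)) (g : A ≃ₐ[K] A) (g' : C ≃ₐ[K] C)
    (hg' : ∀ x : A, g' (algebraMap A C x) = algebraMap A C (g x))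
    {w : HeightOneSpectrum (𝓞 A)}
    (hg : ∀ y : A, w.valuation A (g y) = (bel A W).valuation A y) : bel A (gw g' W) = w := by
  have hv : ∀ y : C, (gw g' W).valuation C (g' y) = W.valuation C y :=
    fun y => val_smul g' W (gw g' W) rfl y
  apply HeightOneSpectrum.ext
  ext x
  rw [Pool.Agent.Helper79.PP.mem_bel]
  have h2 : algebraMap A C (x : A) = g' (algebraMap A C (g⁻¹ (x : A))) := by
    rw [hg']
    congr 1
    show (x : A) = (g * g⁻¹) (x : A)
    rw [mul_inv_cancel]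
    rfl
  rw [h2, hv, valW, pow_lt_one_iff_of_nonneg zero_le (Pool.Agent.Helper79.PP.ram_ne (A := A) W),
    ← hg]
  have h4 : g (g⁻¹ (x : A)) = (x : A) := by
    show (g * g⁻¹) (x : A) = (x : A)
    rw [mul_inv_cancel]
    rfl
  rw [h4]
  exact w.valuation_lt_one_iff_mem x

/-- Elements which are local norms at all the primes above a prime, and conjugation. -/
theorem nm_all_conj {p : ℕ} [hp : Fact p.Prime] (h4 : N_GRP) (h5 : N_TRN) {ε α : C}
    (hε : IsPrimitiveRoot ε p) (hα0 : α ≠ 0) (hα : OmType p K ε α) (g : A ≃ₐ[K] A)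
    {w w₀ : HeightOneSpectrum (𝓞 A)}
    (hg : ∀ y : A, w.valuation A (g y) = w₀.valuation A y) {x : A}
    (h : ∀ W : HeightOneSpectrum (𝓞 C), Above W w → NmAt p W α (algebraMap A C x))
    (W : HeightOneSpectrum (𝓞 C)) (hW : Above W w₀) :
    NmAt p W α (algebraMap A C (g.symm x)) := by
  have hb : bel A W = w₀ := bel_of_above hW
  have hg' : ∀ z : A, (g.liftNormal C) (algebraMap A C z) = algebraMap A C (g z) :=
    fun z => AlgEquiv.liftNormal_commutes g C z
  have hW' := bel_lift W g (g.liftNormal C) hg' (w := w) (by rw [hb]; exact hg)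
  have hab : Above (gw (g.liftNormal C) W) w := by
    rw [← hW']
    exact above_bel _
  have h6 := (nm_conj h4 h5 hε hα0 hα (g.liftNormal C) (W := W)
    (W' := gw (g.liftNormal C) W) (fun y => val_smul _ W _ rfl y) (algebraMap A C (g.symm x))).1
  apply h6
  rw [hg', AlgEquiv.apply_symm_apply]
  exact h _ hab

end lift

section main

variable {p : ℕ} [hp : Fact p.Prime] {K M K₁ M₁ J M₂ : Type} [Field K] [NumberField K] [Field M]
  [NumberField M] [Field K₁] [NumberField K₁] [Field M₁] [NumberField M₁] [Field J]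
  [NumberField J] [Field M₂] [NumberField M₂] [Algebra K M] [Algebra K K₁] [Algebra K M₁]
  [Algebra M M₁] [Algebra K₁ M₁] [Algebra K J] [Algebra K M₂] [Algebra M M₂] [Algebra K₁ M₂]
  [Algebra M₁ M₂] [Algebra J M₂] {ε : K₁} {δ : M ≃ₐ[K] M} {P : (ZMod p)[X]} {a₀ : M₂ˣ}

/-- If all the elements of `M` are local norms at `W ∣ p` then `α` is locally a `p`-th power. -/
theorem pw_all (h3 : L_LC0) {k : Type} [NormedField k] [NormedAlgebra ℚ_[p] k]
    [IsUltrametricDist k] (hk : Nonempty (AlgebraicClosure ℚ →+* k))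
    (hB : SitBs p K M K₁ M₁ J M₂ ε δ P a₀) {a : K₁ˣ} (haO : OmType p K ε (a : K₁))
    (W : HeightOneSpectrum (𝓞 M₂)) (hW : W.valuation M₂ (p : M₂) < 1)
    (hall : ∀ x : Mˣ, NmAt p W ((a₀ : M₂) * algebraMap K₁ M₂ (a : K₁))
      (algebraMap M M₂ (x : M))) :
    PwAt p W ((a₀ : M₂) * algebraMap K₁ M₂ (a : K₁)) := by
  have := hB.t1
  have := hB.t2
  have := hB.t3
  have := hB.gM₂
  have := hB.sit.st1
  have := hB.sit.st2
  have := hB.sit.gK
  have := hB.sit.gM
  have := hB.sit.gMK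
  have hKM : IsScalarTower K M M₂ := by
    refine IsScalarTower.of_algebraMap_eq fun x => ?_
    rw [IsScalarTower.algebraMap_apply K M₁ M₂, IsScalarTower.algebraMap_apply K M M₁,
      IsScalarTower.algebraMap_apply M M₁ M₂]
  have hKK : IsScalarTower K K₁ M₂ := by
    refine IsScalarTower.of_algebraMap_eq fun x => ?_
    rw [IsScalarTower.algebraMap_apply K M₁ M₂, IsScalarTower.algebraMap_apply K K₁ M₁,
      IsScalarTower.algebraMap_apply K₁ M₁ M₂]
  have hG : IsGalois M M₂ := IsGalois.tower_top_of_isGalois K M M₂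
  have hprim₂ : IsPrimitiveRoot (algebraMap K₁ M₂ ε) p :=
    hB.sit.prim.map_of_injective (algebraMap K₁ M₂).injective
  have hα0 : (a₀ : M₂) * algebraMap K₁ M₂ (a : K₁) ≠ 0 :=
    mul_ne_zero a₀.ne_zero ((_root_.map_ne_zero _).2 a.ne_zero)
  have hαO := om_alpha hB.toSitB haO
  have hD : ∀ g : M₂ ≃ₐ[M] M₂, (∀ y : M₂, W.valuation M₂ (g y) = W.valuation M₂ y) →
      g (algebraMap K₁ M₂ ε) = algebraMap K₁ M₂ ε → g = 1 := by
    intro g hg hgε
    have f1 : ∀ y : K₁, g (algebraMap K₁ M₂ y) = algebraMap K₁ M₂ y := by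
      have e1 : AlgEquiv.restrictNormal (g.restrictScalars K) K₁ = 1 := by
        apply hB.sit.gen
        apply (algebraMap K₁ M₂).injective
        rw [AlgEquiv.restrictNormal_commutes]
        exact hgε
      intro y
      have e2 := AlgEquiv.restrictNormal_commutes (g.restrictScalars K) K₁ y
      rw [e1] at e2
      exact e2.symm
    have f2 : ∀ y : M₁, g (algebraMap M₁ M₂ y) = algebraMap M₁ M₂ y := by
      have e1 : AlgEquiv.restrictNormal (g.restrictScalars K) M₁ = 1 := by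
        apply hB.sit.lin
        · intro x
          apply (algebraMap M₁ M₂).injective
          rw [AlgEquiv.restrictNormal_commutes, ← IsScalarTower.algebraMap_apply M M₁ M₂]
          exact g.commutes x
        · intro x
          apply (algebraMap M₁ M₂).injective
          rw [AlgEquiv.restrictNormal_commutes, ← IsScalarTower.algebraMap_apply K₁ M₁ M₂]
          exact f1 x
      intro y
      have e2 := AlgEquiv.restrictNormal_commutes (g.restrictScalars K) M₁ y
      rw [e1] at e2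
      exact e2.symm
    have f3 := free_p hB W hW (AlgEquiv.ofRingEquiv (f := (g : M₂ ≃+* M₂)) f2) hg
    apply AlgEquiv.ext
    intro x
    exact congrArg (fun τ : M₂ ≃ₐ[M₁] M₂ => τ x) f3
  by_contra hn
  obtain ⟨x, hx⟩ := h3 p k hk M M₂ (algebraMap K₁ M₂ ε) _ hprim₂ hα0 W hW
    (fun g _ => hαO (g.restrictScalars K)) hD hn
  exact hx (hall x)

/-- An additive functional with values in `ZMod p` kills the `p`-th powers. -/
theorem hom_pow {A : Type} [CommGroup A] {θ : A → ZMod p} (h : ∀ x y, θ (x * y) = θ x + θ y)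
    (y : A) : θ (y ^ p) = 0 := by
  have h1 : θ 1 = 0 := by
    have h2 := h 1 1
    rw [mul_one] at h2
    exact left_eq_add.1 h2
  have h3 : ∀ n : ℕ, θ (y ^ n) = n * θ y := by
    intro n
    induction n with
    | zero => rw [pow_zero, h1, Nat.cast_zero, zero_mul]
    | succ n ih => rw [pow_succ, h, ih, Nat.cast_succ, add_mul, one_mul]
  rw [h3, ZMod.natCast_self, zero_mul]

/-- Existence of `TauW` from a lower bound for the local conditions. -/
theorem extW (h1 : L_GVL) (h2 : W_THT) (h3 : L_LC0) (h4 : N_GRP) (h5 : N_TRN) {k : Type}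
    [NormedField k] [NormedAlgebra ℚ_[p] k] [IsUltrametricDist k]
    (hk : Nonempty (AlgebraicClosure ℚ →+* k)) (hB : SitBs p K M K₁ M₁ J M₂ ε δ P a₀)
    (L : IwasawaLog p k) (T : Set (K →+* k)) (B : Base p K M K₁ M₁ ε δ P) (a : K₁ˣ)
    (haO : OmType p K ε (a : K₁)) (n : ℕ)
    (hlob : ∀ (𝔪₀ : Ideal (𝓞 M)) (v : Mˣ → HeightOneSpectrum (𝓞 M) → ZMod p),
      LSys δ T (up M B.S) 𝔪₀ v → ∃ F : Finset Mˣ, F.card = p ^ (P.natDegree * n) ∧
      (∀ x ∈ F, LSat L (above T) (up M B.S) v (pol P δ x)) ∧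
      ∀ x ∈ F, ∀ y ∈ F, x ≠ y → ¬ LSat L (above T) (up M B.S) v (x / y)) :
    Nonempty (TauW n B a₀ L T a) := by
  classical
  obtain ⟨_, _, _, _, _, hprim, hgen, -, hsord, hirr, hdvdP, hcopm, hc1, hc2, hnsp, -⟩ := hB.sit
  have := hB.t1
  have := hB.t2
  have := hB.t3
  have := hB.gM₂
  have hKM : IsScalarTower K M M₂ := by
    refine IsScalarTower.of_algebraMap_eq fun x => ?_
    rw [IsScalarTower.algebraMap_apply K M₁ M₂, IsScalarTower.algebraMap_apply K M M₁,
      IsScalarTower.algebraMap_apply M M₁ M₂]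
  have hp' : p.Prime := hp.out
  have hp0 : p ≠ 0 := hp'.ne_zero
  have hTRF : E_TRF := Pool.Agent.Helper40.RD.e_trf
  have hG1 : IsGalois M M₁ := IsGalois.tower_top_of_isGalois K M M₁
  have hG3 : IsGalois M₁ M₂ := IsGalois.tower_top_of_isGalois K M₁ M₂
  have hδm : δ ^ finrank K M = 1 := by rw [← hsord]; exact pow_orderOf_eq_one δ
  have hm0 : 0 < finrank K M := finrank_pos
  obtain ⟨hSf, hst, hSp, -, -, -, -⟩ := Pool.Agent.Helper16.PP.p_upr p K M B.S
  have hSp' := hSp B.abp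
  have hprim₂ : IsPrimitiveRoot (algebraMap K₁ M₂ ε) p :=
    hprim.map_of_injective (algebraMap K₁ M₂).injective
  set α : M₂ := (a₀ : M₂) * algebraMap K₁ M₂ (a : K₁) with hα
  have hα0 : α ≠ 0 := mul_ne_zero a₀.ne_zero ((_root_.map_ne_zero _).2 a.ne_zero)
  have hαO : OmType p K (algebraMap K₁ M₂ ε) α := om_alpha hB.toSitB haO
  -- the uniformizers
  have hal : ∀ q : HeightOneSpectrum (𝓞 K), ∃ al : K,
      (∃ al : K, Good p α q al) → Good p α q al := by
    intro q
    by_cases h : ∃ al : K, Good p α q al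
    · obtain ⟨al, hal⟩ := h
      exact ⟨al, fun _ => hal⟩
    · exact ⟨0, fun h' => absurd h' h⟩
  choose alq halq using hal
  obtain ⟨R₁, hR₁def⟩ : ∃ R₁ : Set (HeightOneSpectrum (𝓞 M)), R₁ = {w | w ∈ up M B.S ∧
      FreeP K w ∧ ∃ al : K, Good p α (bel K w) al} := ⟨_, rfl⟩
  have hRm : ∀ w, w ∈ R₁ ↔ (w ∈ up M B.S ∧ FreeP K w ∧ ∃ al : K, Good p α (bel K w) al) := by
    intro w
    rw [hR₁def]
    exact Iff.rfl
  obtain ⟨R₂, hR₂def⟩ : ∃ R₂ : Set (HeightOneSpectrum (𝓞 M)), R₂ = {w | w ∈ up M B.S ∧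
      w.valuation M (p : M) < 1 ∧ FreeP K w ∧
      (¬ ∃ τ ∈ (above T : Set (M →+* k)), ∀ b : 𝓞 M, b ∈ w.asIdeal ↔ ‖τ (b : M)‖ < 1) ∧
      ∃ x : Mˣ, ¬ ∀ W : HeightOneSpectrum (𝓞 M₂), Above W w →
        NmAt p W α (algebraMap M M₂ (x : M))} := ⟨_, rfl⟩
  have hRn : ∀ w, w ∈ R₂ ↔ (w ∈ up M B.S ∧
      w.valuation M (p : M) < 1 ∧ FreeP K w ∧
      (¬ ∃ τ ∈ (above T : Set (M →+* k)), ∀ b : 𝓞 M, b ∈ w.asIdeal ↔ ‖τ (b : M)‖ < 1) ∧
      ∃ x : Mˣ, ¬ ∀ W : HeightOneSpectrum (𝓞 M₂), Above W w →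
        NmAt p W α (algebraMap M M₂ (x : M))) := by
    intro w
    rw [hR₂def]
    exact Iff.rfl
  have hWex : ∀ w : HeightOneSpectrum (𝓞 M), ∃ W : HeightOneSpectrum (𝓞 M₂), bel M W = w :=
    fun w => exists_bel (M₁ := M₂) w
  have hWp : ∀ W : HeightOneSpectrum (𝓞 M₂), (bel K W).valuation K (p : K) = 1 →
      W.valuation M₂ (p : M₂) = 1 := by
    intro W h
    rw [← natCast_notMem_iff, natCast_bel (K := K), natCast_notMem_iff]
    exact h
  have hR : IsDat p R₁ (fun w => alq (bel K w)) := by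
    refine ⟨hSf.subset fun w hw => ((hRm w).1 hw).1, fun w hw w' h => ?_,
      fun w hw => ((hRm w).1 hw).2.1, fun w hw => ?_, fun w hw => ?_, fun w hw => ?_,
      fun w hw w' h => ?_⟩
    · rw [hRm] at hw ⊢
      refine ⟨hst w hw.1 w' h, free_of_conj h hw.2.1, ?_⟩
      rw [bel_eq_of_conj h]
      exact hw.2.2
    · obtain ⟨-, -, al, hal, -, -⟩ := (hRm w).1 hw
      rw [← natCast_notMem_iff, natCast_bel (K := K), natCast_notMem_iff]
      exact hal
    · obtain ⟨-, hwf, al, hal1, hal2, hal3⟩ := (hRm w).1 hw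
      obtain ⟨W, hW⟩ := hWex w
      have hb : bel K W = bel K w := by rw [← bel_bel (M := M) W, hW]
      have hWp1 := hWp W (by rw [hb]; exact hal1)
      rw [absNorm_free (K := K) w hwf, ← hb]
      refine norm_good hB.toSitB haO hWp1 (not_dvd_alpha hB.toSitB a hWp1 (al := al) ?_ ?_).1
      · rw [hb, hal2]
        intro h
        have h2 := Int.eq_one_of_dvd_one (by positivity) h
        exact hp'.one_lt.ne' (by exact_mod_cast h2)
      · exact hal3 W (by rw [← hb]; exact above_bel W)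
    · obtain ⟨-, hwf, hex⟩ := (hRm w).1 hw
      rw [free_ord (K := K) w hwf]
      exact (halq _ hex).2.1
    · show alq (bel K w') = alq (bel K w)
      rw [bel_eq_of_conj h]
  have hdisj : ∀ w ∈ R₁, w ∉ R₂ := by
    intro w hw hw'
    have e1 := hR.copr w hw
    have e2 := ((hRn w).1 hw').2.1
    exact absurd e1 e2.ne
  -- conjugate primes
  have hcp : ∀ {w w₀ : HeightOneSpectrum (𝓞 M)} (g : M ≃ₐ[K] M),
      (∀ y : M, w.valuation M (g y) = w₀.valuation M y) →
      w₀.valuation M (p : M) = w.valuation M (p : M) := by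
    intro w w₀ g hg
    rw [← hg, map_natCast]
  have hR₂st : ∀ w ∈ R₂, ∀ w', ConjP K w' w → w' ∈ R₂ := by
    intro w hw w' hc
    have hc' := hc
    obtain ⟨g, hg⟩ := hc
    obtain ⟨f1, f2, f3, f4, x, hx⟩ := (hRn w).1 hw
    refine (hRn w').2 ⟨hst w f1 w' hc', by rw [← hcp g hg]; exact f2, free_of_conj hc' f3, ?_,
      Units.map ((g : M →+* M) : M →* M) x, fun hall => hx ?_⟩
    · rintro ⟨τ, hτ, hτ'⟩
      refine f4 ⟨τ.comp (g : M →+* M), ?_, fun b => ?_⟩
      · show (τ.comp (g : M →+* M)).comp (algebraMap K M) ∈ T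
        have e : (τ.comp (g : M →+* M)).comp (algebraMap K M) = τ.comp (algebraMap K M) := by
          ext y
          show τ (g (algebraMap K M y)) = τ (algebraMap K M y)
          rw [g.commutes]
        rw [e]
        exact hτ
      · have e1 := hτ' (g • b)
        rw [← w.valuation_lt_one_iff_mem (K := M), ← hg]
        rw [← w'.valuation_lt_one_iff_mem (K := M)] at e1
        exact e1
    · intro W hW
      have e1 := nm_all_conj h4 h5 hprim₂ hα0 hαO g hg hall W hW
      have e2 : g.symm ((Units.map ((g : M →+* M) : M →* M) x : Mˣ) : M) = (x : M) :=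
        g.symm_apply_apply (x : M)
      rwa [e2] at e1
  -- the functionals
  have hθ : ∀ w : HeightOneSpectrum (𝓞 M), ∃ θ : Mˣ → ZMod p,
      (w ∈ R₁ → (∀ x y, θ (x * y) = θ x + θ y) ∧ (∃ x, θ x ≠ 0) ∧
        ∀ x : Mˣ, θ x = 0 ↔ ∃ i : ℕ, LocPow p w ((x : M) * algebraMap K M (alq (bel K w)) ^ i)) ∧
      (w ∈ R₂ → (∀ x y, θ (x * y) = θ x + θ y) ∧ (∃ x, θ x ≠ 0) ∧
        (∀ x : Mˣ, Cl p w (x : M) → θ x = 0) ∧
        ∀ x : Mˣ, (∀ W : HeightOneSpectrum (𝓞 M₂), Above W w →
          NmAt p W α (algebraMap M M₂ (x : M))) → θ x = 0) := by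
    intro w
    by_cases hw : w ∈ R₁
    · have hne : algebraMap K M (alq (bel K w)) ≠ 0 := by
        intro h0
        have h6 := hR.unif w hw
        have h7 : ordv w (algebraMap K M (alq (bel K w))) = 1 := h6
        rw [h0] at h7
        unfold ordv at h7
        simp at h7
      obtain ⟨θ, g1, g2, g3⟩ := Pool.Agent.Helper32.RDV.exists_tame p w _ hne (hR.unif w hw)
        (hR.norm w hw)
      refine ⟨θ, fun _ => ⟨g1, ?_, fun x => ?_⟩, fun h => absurd h (hdisj w hw)⟩
      · obtain ⟨x, hx⟩ := g3 1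
        exact ⟨x, by rw [hx]; exact one_ne_zero⟩
      · rw [g2, Pool.Agent.Helper32.RDV.mem_GG_iff]
    · by_cases hw' : w ∈ R₂
      · obtain ⟨θ, hθ⟩ := h2 p M M₂ α hα0 w ((hRn w).1 hw').2.2.2.2
        exact ⟨θ, fun h => absurd h hw, fun _ => hθ⟩
      · exact ⟨0, fun h => absurd h hw, fun h => absurd h hw'⟩
  choose θ hθ₁ hθ₂ using hθ
  have hθcl : ∀ w ∈ R₁ ∪ R₂, (∀ x y, θ w (x * y) = θ w x + θ w y) ∧ (∃ x, θ w x ≠ 0) ∧
      ∀ x : Mˣ, Cl p w (x : M) → θ w x = 0 := by
    rintro w (hw | hw)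
    · obtain ⟨g1, g2, g3⟩ := hθ₁ w hw
      refine ⟨g1, g2, fun x hx => (g3 x).2 ⟨0, 1, ?_⟩⟩
      rw [pow_zero, mul_one, one_pow, mul_one]
      exact hx.1
    · obtain ⟨g1, g2, g3, -⟩ := hθ₂ w hw
      exact ⟨g1, g2, g3⟩
  have hRS : R₁ ∪ R₂ ⊆ up M B.S := by
    rintro w (hw | hw)
    · exact ((hRm w).1 hw).1
    · exact ((hRn w).1 hw).1
  have hRst : ∀ w ∈ R₁ ∪ R₂, ∀ w', ConjP K w' w → w' ∈ R₁ ∪ R₂ := by
    rintro w (hw | hw) w' hc
    · exact Or.inl (hR.stable w hw w' hc)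
    · exact Or.inr (hR₂st w hw w' hc)
  have hRf : ∀ w ∈ R₁ ∪ R₂, FreeP K w := by
    rintro w (hw | hw)
    · exact hR.free w hw
    · exact ((hRn w).1 hw).2.2.1
  have hRT : ∀ w ∈ R₁ ∪ R₂, ∀ τ ∈ (above T : Set (M →+* k)),
      ¬ ∀ b : 𝓞 M, b ∈ w.asIdeal ↔ ‖τ (b : M)‖ < 1 := by
    rintro w (hw | hw) τ hτ hb
    · have e2 : ((p : ℕ) : 𝓞 M) ∈ w.asIdeal := (hb _).2 (Pool.Agent.Helper32.RDV.p_mem_PI τ)
      exact (natCast_notMem_iff w p).2 (hR.copr w hw) e2
    · exact ((hRn w).1 hw).2.2.2.1 ⟨τ, hτ, hb⟩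
  obtain ⟨𝔪₀, v, hv, hvN, hvR⟩ := h1 p k K M δ T (R₁ ∪ R₂) (up M B.S) θ hSf hst hSp' hRS hRst hRf
    hRT hθcl
  obtain ⟨G, hG, hGp, hGδ⟩ := Pool.Agent.Helper90.RP.s_sub p k L K M δ T (up M B.S) 𝔪₀ v hv
  obtain ⟨F, hFc, hF1, hF2⟩ := hlob 𝔪₀ v hv
  obtain ⟨h, hhP, hhG, hhI⟩ := (Pool.Agent.Helper91.PP.p_sep p K M (finrank K M) δ P hm0 hcopm
    hδm hirr hdvdP G hGp hGδ).2 n ⟨F, hFc, fun x hx => (hG _).2 (hF1 x hx),
      fun x hx y hy hxy hxG => hF2 x hx y hy hxy ((hG _).1 hxG)⟩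
  obtain ⟨Gl, hGL, -, -, -, hGL5⟩ := Pool.Agent.Helper74.PP.p_lfi p K M (up M B.S) hSf hSp' hst
  have hvN' : ∀ w ∈ up M B.S, w ∉ R₁ → w ∉ R₂ → ∀ x : Mˣ, (p : ℤ) ∣ ordv w (x : M) →
      v x w = 0 := by
    intro w hw e1 e2 x hx
    rw [hvN w hw (fun h => h.elim e1 e2) x, ZMod.intCast_zmod_eq_zero_iff_dvd]
    exact hx
  -- the primes which do not divide `p`
  have hcmp : ∀ w ∈ up M B.S, FreeP K w → (bel K w).valuation K (p : K) = 1 → ∀ x : Mˣ,
      (∀ W ∈ up M₂ B.S, bel K W = bel K w → LocAt p W α (algebraMap M M₂ (x : M))) →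
      LocD p R₁ (fun w => alq (bel K w)) w (x : M) := by
    intro w hw hwf hvp x hloc
    obtain ⟨W, hW⟩ := hWex w
    have hb : bel K W = bel K w := by rw [← bel_bel (M := M) W, hW]
    have hWS : ∀ W' : HeightOneSpectrum (𝓞 M₂), bel K W' = bel K w → W' ∈ up M₂ B.S := by
      intro W' hW'
      obtain ⟨q, hq, hab⟩ := hw
      refine ⟨q, hq, ?_⟩
      rw [← bel_of_above hab, ← hW']
      exact above_bel W'
    have hWp1 := hWp W (by rw [hb]; exact hvp)
    obtain ⟨x', hx'⟩ := exists_close (K := K) w hwf (x : M) x.ne_zero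
    have hx'W : W.valuation M₂ (algebraMap K M₂ x' / algebraMap M M₂ (x : M) - 1) < 1 := by
      have e : algebraMap K M₂ x' / algebraMap M M₂ (x : M) - 1 =
          algebraMap M M₂ (algebraMap K M x' / (x : M) - 1) := by
        rw [map_sub, map_div₀, map_one, ← IsScalarTower.algebraMap_apply K M M₂]
      rw [e, valW (M := M) W, hW]
      exact pow_lt_one₀ zero_le hx'
        (Pool.Agent.Helper79.PP.ram_ne (A := M) W |> fun h => by rw [hW] at h; exact h)
    have hxM₂ : algebraMap M M₂ (x : M) ≠ 0 := (_root_.map_ne_zero _).2 x.ne_zero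
    have hlW : LocAt p W α (algebraMap K M₂ x') :=
      locAt_close W hp0 hxM₂ hx'W (hloc W (hWS W hb) hb)
    have hlall : ∀ W' : HeightOneSpectrum (𝓞 M₂), Above W' (bel K w) →
        LocAt p W' α (algebraMap K M₂ x') := by
      intro W' hW'
      obtain ⟨g, hg⟩ := conj_of_bel' (K := K) (w := W') (v := W)
        ((bel_of_above hW').trans hb.symm)
      have h5 := locAt_conj hprim₂ hα0 hαO g hg hlW
      rwa [g.commutes] at h5
    have hx'0 : x' ≠ 0 := by
      rintro rfl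
      rw [map_zero, zero_div, zero_sub, Valuation.map_neg, map_one] at hx'
      exact lt_irrefl _ hx'
    have hordx : ordv (bel K w) x' = ordv w (x : M) := by
      rw [← free_ord (K := K) w hwf]
      exact ordv_eq_of_div w x.ne_zero hx'
    refine ⟨fun hwR => ?_, fun hwR => ?_⟩
    · by_contra hnd
      apply hwR
      rw [hRm]
      refine ⟨hw, hwf, good_of hα0 hvp (x := x') ?_ hlall⟩
      rw [hordx]
      exact hnd
    · obtain ⟨-, -, hex⟩ := (hRm w).1 hwR
      obtain ⟨-, hal1, hal2⟩ := halq _ hex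
      have hnd1 : ¬ (p : ℤ) ∣ ordv (bel K W) (alq (bel K w)) := by
        rw [hb, hal1]
        intro h
        have h2 := Int.eq_one_of_dvd_one (by positivity) h
        exact hp'.one_lt.ne' (by exact_mod_cast h2)
      obtain ⟨j, hj⟩ := one_dim hB.toSitB a hWp1 hnd1
        (hal2 W (by rw [← hb]; exact above_bel W)) hx'0 hlW
      refine ⟨j, ?_⟩
      rw [hb] at hj
      have h6 := Pool.Agent.Helper17.RL.locPow_up p (M := K) (M₁ := M) (W := w)
        (w := bel K w) (above_bel w) _ hj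
      have h7 : w.valuation M ((x : M) / algebraMap K M x' - 1) < 1 := by
        have h8 := val_inv_sub w hx'
        rwa [inv_div] at h8
      have h9 := locPow_mul w (locPow_of_sub (p := p) w h7) h6
      have hx'M : algebraMap K M x' ≠ 0 := (_root_.map_ne_zero _).2 hx'0
      have e : (x : M) / algebraMap K M x' * algebraMap K M (x' * alq (bel K w) ^ j) =
          (x : M) * (algebraMap K M (alq (bel K w))) ^ j := by
        rw [map_mul, map_pow]
        field_simp
      rwa [e] at h9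
  refine ⟨⟨⟨h, hhP, ?_, hhI⟩, ?_⟩⟩
  · intro j x hx
    refine hhG _ x ((hG x).2 ⟨fun w hw => ?_, ?_⟩)
    · by_cases hwR : w ∈ R₁ ∪ R₂
      · obtain ⟨w₀, hw₀, g, hg, hgv⟩ := hvR w hwR
        obtain ⟨y, hy⟩ := hx
        obtain ⟨g1, -, g3⟩ := hθcl w₀ hw₀
        have e1 : Cl p w (((x * y ^ p : Mˣ)) : M) := by
          rw [Units.val_mul, Units.val_pow_eq_pow_val]
          exact hy w hw
        have e2 : θ w₀ (act g⁻¹ (x * y ^ p)) = 0 := g3 _ (cl_conj g hg e1)
        rw [map_mul, map_pow, g1, hom_pow g1, add_zero] at e2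
        rw [hgv, e2]
      · exact hvN' w hw (fun h => hwR (Or.inl h)) (fun h => hwR (Or.inr h)) x
          (hGL5 x ((hGL x).2 hx) w hw).1
    · obtain ⟨y, hy⟩ := hx
      refine locSig_mul_pow L _ x y
        (Pool.Agent.Helper59.RP.s_bin p k L M (above T) (x * y ^ p) fun τ hτ => ?_)
      have h6 := (hy (wt p τ) (hSp' _ (wt_p p τ))).2
      rw [← map_pow] at h6
      have h7 := norm_small_of_val p τ h6
      rw [map_sub, map_one] at h7
      rw [Units.val_mul, Units.val_pow_eq_pow_val]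
      exact h7
  · intro j x hx hloc hsig
    refine hhG _ x ((hG x).2 ⟨fun w hw => ?_, hsig⟩)
    obtain ⟨W, hW⟩ := hWex w
    have hb : bel K W = bel K w := by rw [← bel_bel (M := M) W, hW]
    have hWS : ∀ W' : HeightOneSpectrum (𝓞 M₂), bel K W' = bel K w → W' ∈ up M₂ B.S := by
      intro W' hW'
      obtain ⟨q, hq, hab⟩ := hw
      refine ⟨q, hq, ?_⟩
      rw [← bel_of_above hab, ← hW']
      exact above_bel W'
    by_cases hwf : FreeP K w
    swap
    · exact hvN' w hw (fun h => hwf ((hRm w).1 h).2.1) (fun h => hwf ((hRn w).1 h).2.2.1) x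
        (hnsp w hwf x hx)
    by_cases hvp : (bel K w).valuation K (p : K) = 1
    · -- `w` does not divide `p`
      have hWp2 : ∀ W' : HeightOneSpectrum (𝓞 M₂), bel K W' = bel K w →
          W'.valuation M₂ (p : M₂) = 1 := fun W' h => hWp W' (by rw [h]; exact hvp)
      have hw2 : w ∉ R₂ := by
        intro h
        have e1 := ((hRn w).1 h).2.1
        have e2 : w.valuation M (p : M) = 1 := by
          rw [← natCast_notMem_iff, natCast_bel (K := K), natCast_notMem_iff]
          exact hvp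
        exact absurd e2 e1.ne
      have hD := hcmp w hw hwf hvp x fun W' hW' hW'b => (hloc W' hW').1 (hWp2 W' hW'b)
      by_cases hw1 : w ∈ R₁
      · obtain ⟨w₀, hw₀, g, hg, hgv⟩ := hvR w (Or.inl hw1)
        have hc : ConjP K w₀ w := conj_symm ⟨g, hg⟩
        have hw₀1 : w₀ ∈ R₁ := hR.stable w hw1 w₀ hc
        obtain ⟨i, hi⟩ := hD.2 hw1
        rw [hgv, (hθ₁ w₀ hw₀1).2.2]
        refine ⟨i, (locPow_conj g hg _).1 ?_⟩
        have e1 : g (((act g⁻¹ x : Mˣ) : M) * algebraMap K M (alq (bel K w₀)) ^ i) =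
            (x : M) * algebraMap K M (alq (bel K w)) ^ i := by
          rw [map_mul, map_pow, g.commutes, bel_eq_of_conj hc]
          congr 1
          exact g.apply_symm_apply (x : M)
        rw [e1]
        exact hi
      · exact hvN' w hw hw1 hw2 x (hD.1 hw1)
    · -- `w` divides `p`
      have hvp' : (bel K w).valuation K (p : K) < 1 := by
        refine lt_of_le_of_ne ?_ hvp
        simpa using (bel K w).valuation_le_one (K := K) (p : 𝓞 K)
      have hwp : w.valuation M (p : M) < 1 := by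
        rw [← natCast_mem_iff, natCast_bel (K := K), natCast_mem_iff]
        exact hvp'
      have hWp' : ∀ W' : HeightOneSpectrum (𝓞 M₂), bel K W' = bel K w →
          W'.valuation M₂ (p : M₂) < 1 := by
        intro W' h
        rw [← natCast_mem_iff, natCast_bel (K := K), h, natCast_mem_iff]
        exact hvp'
      have hw1 : w ∉ R₁ := by
        intro hwR
        obtain ⟨-, -, al, hal, -, -⟩ := (hRm w).1 hwR
        exact absurd hal hvp
      by_cases hw2 : w ∈ R₂
      · obtain ⟨w₀, hw₀, g, hg, hgv⟩ := hvR w (Or.inr hw2)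
        have hc : ConjP K w₀ w := conj_symm ⟨g, hg⟩
        have hw₀2 : w₀ ∈ R₂ := hR₂st w hw2 w₀ hc
        rw [hgv]
        refine (hθ₂ w₀ hw₀2).2.2.2 _ fun W₀ hW₀ => ?_
        refine nm_all_conj h4 h5 hprim₂ hα0 hαO g hg (fun W' hW' => ?_) W₀ hW₀
        have hb' : bel K W' = bel K w := by rw [← bel_bel (M := M) W', bel_of_above hW']
        exact ((hloc W' (hWS W' hb')).2 (hWp' W' hb')).1
      · refine hvN' w hw hw1 hw2 x ?_
        by_cases hat : ∃ τ ∈ (above T : Set (M →+* k)), ∀ b : 𝓞 M, b ∈ w.asIdeal ↔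
            ‖τ (b : M)‖ < 1
        · obtain ⟨τ, hτ, hτv⟩ := hat
          obtain ⟨y, hy⟩ := hsig 0
          have h6 : ordv w (((x * y ^ p : Mˣ)) : M) = 0 :=
            Pool.Agent.Helper49.RL.ordv_of_norm w τ hτv (hy τ hτ).1
          rw [Units.val_mul, Units.val_pow_eq_pow_val,
            ordv_mul w x.ne_zero (pow_ne_zero _ y.ne_zero), ordv_pow] at h6
          exact ⟨-ordv w (y : M), by linarith⟩
        · have hall : ∀ x' : Mˣ, ∀ W' : HeightOneSpectrum (𝓞 M₂), Above W' w →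
              NmAt p W' α (algebraMap M M₂ (x' : M)) := by
            intro x'
            by_contra hcon
            exact hw2 ((hRn w).2 ⟨hw, hwp, hwf, hat, x', hcon⟩)
          have hWW : Above W w := by
            rw [← hW]
            exact above_bel W
          have hpw := pw_all h3 hk hB haO W (hWp' W hb) fun x' => hall x' W hWW
          have h7 := ((hloc W (hWS W hb)).2 (hWp' W hb)).2 hpw
          rw [IsScalarTower.algebraMap_apply M M₁ M₂,
            free_ord (K := M₁) W (free_p hB W (hWp' W hb))] at h7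
          have hab : Above (bel M₁ W) w := by
            rw [← hW]
            exact congrArg HeightOneSpectrum.asIdeal (bel_bel (K := M) (M := M₁) W)
          exact ((hTRF p M M₁ hc1 _ w hab).1 _).1 h7

end main

/-- **V_EXTW.** -/
theorem v_extw (h1 : L_GVL) (h2 : W_THT) (h3 : L_LC0) (h4 : N_GRP) (h5 : N_TRN) :
    Pool.Agent.Helper42.PW.V_EXTW := by
  intro p hp k _ _ _ hk K M K₁ M₁ J M₂ _ _ _ _ _ _ _ _ _ _ _ _ _ _ _ _ _ _ _ _ _ _ _ ε δ P a₀
    hB L T B aτ haO n hlob
  exact extW h1 h2 h3 h4 h5 hk hB L T B aτ haO n hlob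

end Pool.Agent.Helper87.PW
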