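import Pool.Agent.Helper42.PW.Goals4
import Pool.Agent.Helper86.ND.NMOMW

/-!
# Project W (MP_fc6b1e_nt): from the labels to the classes (`W_MOMV`)

Adapted from `Pool/Agent/Helper86/ND/NMOMW.lean`.
-/

set_option autoImplicit false

namespace Pool.Agent.Helper87.PW

open NumberField Polynomial Module IsDedekindDomain TensorProduct
open Pool.Agent.Helper51.RP Pool.Agent.Helper42.RD Pool.Agent.Helper42.PP Pool.Agent.Helper42.PP1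
open Pool.Agent.Helper51.SigLeo Pool.Agent.Helper11.LE Pool.Agent.Helper11.PP
open Pool.Agent.Helper17.PP (Sys)
open Pool.Agent.Helper42.PB
open Pool.Agent.Helper42.PW
open Pool.Agent.Helper38.ND
open Pool.Agent.Helper86.ND (sub_fin sub_card sub_card2)
open Pool.Agent.Helper79.PP (clp_eq clp_one clp_mul clp_pow clp_eq_one nice_val)
open Pool.Agent.Helper15.PP (gZ mem_gZ)

section core

variable {p : ℕ} [Fact p.Prime] {K M K₁ M₁ : Type} [Field K] [NumberField K] [Field M]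
    [NumberField M] [Field K₁] [NumberField K₁] [Field M₁] [NumberField M₁] [Algebra K M]
    [Algebra K K₁] [Algebra K M₁] [Algebra M M₁] [Algebra K₁ M₁] {ε : K₁} {δ : M ≃ₐ[K] M}
    {P : (ZMod p)[X]} (B : Base p K M K₁ M₁ ε δ P)

theorem up_mono {K F : Type} [Field K] [NumberField K] [Field F] [NumberField F] [Algebra K F]
    {S S' : Finset (HeightOneSpectrum (𝓞 K))} (h : S ⊆ S') : up F S ⊆ up F S' := by
  rintro W ⟨v, hv, hW⟩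
  exact ⟨v, h hv, hW⟩

theorem coreV (hABS : N_ABS) (S₀ : Finset (HeightOneSpectrum (𝓞 K))) (hS₀ : S₀ ⊆ B.S)
    (A : Set (ClP p K₁)) (hA : LocA p K ε S₀ A) (f : ClP p K₁ → ℕ) (F₀ : Finset K₁ˣ)
    (hne : Nonempty F₀) (hF₀ : ∀ c ∈ F₀, OmType p K ε (c : K₁) ∧ clp p c ∈ A)
    (huq : ∀ a : K₁ˣ, OmType p K ε (a : K₁) → clp p a ∈ A →
      ∃! c, c ∈ F₀ ∧ LocS p (up K₁ B.S) (a / c))
    (Fam Bad : F₀ → Finset B.LP → Prop)
    (hfam : ∀ (τ : F₀) (a : K₁ˣ), OmType p K ε (a : K₁) → LocS p (up K₁ B.S) (a / τ) →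
      Fam τ (B.lab a))
    (hex : ∀ (τ : F₀) (b : Finset B.LP), Fam τ b → ∃ a : K₁ˣ, OmType p K ε (a : K₁) ∧
      LocS p (up K₁ B.S) (a / τ) ∧ B.lab a = b)
    (huni : ∀ (τ : F₀) (a a' : K₁ˣ), OmType p K ε (a : K₁) → OmType p K ε (a' : K₁) →
      LocS p (up K₁ B.S) (a / τ) → LocS p (up K₁ B.S) (a' / τ) → B.lab a = B.lab a' →
      Pw p (a / a'))
    (Bd : Set (ClP p K₁))
    (hbad : ∀ (τ : F₀) (a : K₁ˣ), clp p a ∈ Bd → OmType p K ε (a : K₁) →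
      LocS p (up K₁ B.S) (a / τ) → Bad τ (B.lab a))
    (FT : F₀ → ℕ) (hFT : ∀ τ, 1 ≤ FT τ)
    (hwt : ∀ (τ : F₀) (a : K₁ˣ), OmType p K ε (a : K₁) → LocS p (up K₁ B.S) (a / τ) →
      f (clp p a) = FT τ * ∏ q ∈ B.lab a, Ideal.absNorm q.1.1.asIdeal)
    (g : ℝ → ℝ) (Kc c X₁ θ : ℝ) (hc : 0 < c) (hθ : 0 ≤ θ) (hg : Slow g Kc)
    (ha1 : ∀ τ : F₀, ∀ X : ℝ, 0 < X →
      {b : {b : Finset B.LP // Fam τ b} |
        ((∏ q ∈ b.1, Ideal.absNorm q.1.1.asIdeal : ℕ) : ℝ) ≤ X}.Finite ∧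
      ({b : {b : Finset B.LP // Fam τ b} |
        ((∏ q ∈ b.1, Ideal.absNorm q.1.1.asIdeal : ℕ) : ℝ) ≤ X}.ncard : ℝ) ≤ Kc * (X * g X))
    (ha2 : ∀ τ : F₀, ∀ X : ℝ, 0 < X → X₁ ≤ X → c * (X * g X) ≤
      ({b : {b : Finset B.LP // Fam τ b} |
        ((∏ q ∈ b.1, Ideal.absNorm q.1.1.asIdeal : ℕ) : ℝ) ≤ X}.ncard : ℝ))
    (ha3 : ∀ η : ℝ, 0 < η → ∃ X₀ : ℝ, ∀ τ : F₀, ∀ X : ℝ, X₀ ≤ X →
      ({b : {b : Finset B.LP // Fam τ b} | b ∈ {b : {b : Finset B.LP // Fam τ b} | Bad τ b.1} ∧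
        ((∏ q ∈ b.1, Ideal.absNorm q.1.1.asIdeal : ℕ) : ℝ) ≤ X}.ncard : ℝ) ≤
      θ * ({b : {b : Finset B.LP // Fam τ b} |
        ((∏ q ∈ b.1, Ideal.absNorm q.1.1.asIdeal : ℕ) : ℝ) ≤ X}.ncard : ℝ) + η * (X * g X)) :
    MomV p K ε A f Bd θ := by
  classical
  have hp : p.Prime := Fact.out
  -- the local conditions
  have hnice : ∀ a b : K₁ˣ, OmType p K ε (a : K₁) → OmType p K ε (b : K₁) → clp p b ∈ A →
      LocS p (up K₁ B.S) (a / b) → clp p a ∈ A := by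
    intro a b ha hb hbA hab
    refine hA b a hb ha (locS_mono (up_mono hS₀) ?_) hbA
    have h1 := (gZ p _).inv_mem (mem_gZ.2 hab)
    rw [inv_div] at h1
    exact mem_gZ.1 h1
  -- representatives
  have hrep : ∀ c : (BSet p K ε ∩ A : Set (ClP p K₁)), ∃ a : K₁ˣ, clp p a = c.1 ∧
      OmType p K ε (a : K₁) := fun c => c.2.1.2
  choose ra hra1 hra2 using hrep
  have hra3 : ∀ c, clp p (ra c) ∈ A := by
    intro c
    rw [hra1]
    exact c.2.2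
  have hτ : ∀ c : (BSet p K ε ∩ A : Set (ClP p K₁)), ∃ τ : F₀,
      LocS p (up K₁ B.S) (ra c / τ) := by
    intro c
    obtain ⟨τ, ⟨h1, h2⟩, -⟩ := huq (ra c) (hra2 c) (hra3 c)
    exact ⟨⟨τ, h1⟩, h2⟩
  choose rt hrt using hτ
  have huq' : ∀ (a : K₁ˣ) (τ τ' : F₀), OmType p K ε (a : K₁) → clp p a ∈ A →
      LocS p (up K₁ B.S) (a / τ) → LocS p (up K₁ B.S) (a / τ') → τ = τ' := by
    intro a τ τ' h1 h2 h3 h4
    obtain ⟨σ, -, h5⟩ := huq a h1 h2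
    exact Subtype.ext ((h5 _ ⟨τ.2, h3⟩).trans (h5 _ ⟨τ'.2, h4⟩).symm)
  let β : F₀ → Type := fun τ => {b : Finset B.LP // Fam τ b}
  let n : ∀ τ, β τ → ℕ := fun τ b => ∏ q ∈ b.1, Ideal.absNorm q.1.1.asIdeal
  let bad : ∀ τ, Set (β τ) := fun τ => {b | Bad τ b.1}
  let Φ : (BSet p K ε ∩ A : Set (ClP p K₁)) → Σ τ, β τ := fun c =>
    ⟨rt c, ⟨B.lab (ra c), hfam (rt c) (ra c) (hra2 c) (hrt c)⟩⟩
  have hom1 : OmType p K ε ((1 : K₁ˣ) : K₁) := by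
    obtain ⟨τ⟩ := hne
    exact om_one ⟨((τ : K₁ˣ) : K₁), (τ : K₁ˣ).ne_zero, (hF₀ τ τ.2).1⟩
  have hΦ : Function.Injective Φ := by
    intro c c' h
    have h1 : rt c = rt c' := congrArg (fun x : Σ τ, β τ => x.1) h
    have h2 : B.lab (ra c) = B.lab (ra c') := congrArg (fun x : Σ τ, β τ => x.2.1) h
    have h3 := huni (rt c) (ra c) (ra c') (hra2 c) (hra2 c') (hrt c) (by rw [h1]; exact hrt c') h2
    apply Subtype.ext
    rw [← hra1 c, ← hra1 c']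
    obtain ⟨y, hy⟩ := h3
    rw [eq_comm, clp_eq]
    exact ⟨y, by rw [← hy, mul_div_cancel]⟩
  have hexc : ∀ x ∈ (Set.range Φ)ᶜ, LocS p (up K₁ B.S) (1 / (x.1 : K₁ˣ)) ∧
      x.2.1 = B.lab 1 ∧ clp p (1 : K₁ˣ) ∈ A := by
    rintro ⟨τ, ⟨b, hb⟩⟩ hx
    obtain ⟨a, ha1, ha2, ha3⟩ := hex τ b hb
    have ha4 : clp p a ∈ A := hnice a τ ha1 (hF₀ τ τ.2).1 (hF₀ τ τ.2).2 ha2
    have haP : Pw p a := by
      by_contra haP
      have hc : clp p a ∈ BSet p K ε ∩ A := ⟨⟨by rwa [Ne, clp_eq_one], a, rfl, ha1⟩, ha4⟩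
      apply hx
      refine ⟨⟨clp p a, hc⟩, ?_⟩
      set c : (BSet p K ε ∩ A : Set (ClP p K₁)) := ⟨clp p a, hc⟩ with hcdef
      obtain ⟨y, hy⟩ := clp_eq.1 (hra1 c).symm
      have h1 : LocS p (up K₁ B.S) (ra c / τ) := by
        have h2 := (gZ p _).mul_mem (mem_gZ.2 ha2)
          (mem_gZ.2 (locS_pow (p := p) (Z := up K₁ B.S) y))
        have h3 : ra c / (τ : K₁ˣ) = a / τ * y ^ p := by
          rw [hy, mul_div_right_comm]
        rw [h3]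
        exact mem_gZ.1 h2
      have h2 : rt c = τ := huq' (ra c) _ _ (hra2 c) (hra3 c) (hrt c) h1
      have h3 : B.lab (ra c) = b := by rw [hy, lab_mul_pow, ha3]
      subst h2
      subst h3
      rfl
    obtain ⟨y, hy⟩ := haP
    have h1 : B.lab a = B.lab 1 := by rw [hy, ← lab_mul_pow B 1 y, one_mul]
    have h2 : LocS p (up K₁ B.S) (1 / (τ : K₁ˣ)) := by
      have h3 := (gZ p _).mul_mem (mem_gZ.2 ha2)
        ((gZ p _).inv_mem (mem_gZ.2 (locS_pow (p := p) (Z := up K₁ B.S) y)))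
      have h4 : a / (τ : K₁ˣ) * (y ^ p)⁻¹ = 1 / τ := by
        rw [hy, div_eq_mul_inv, one_div, mul_right_comm, mul_inv_cancel, one_mul]
      rw [h4] at h3
      exact mem_gZ.1 h3
    refine ⟨h2, ?_, ?_⟩
    · show b = B.lab 1
      rw [← ha3, h1]
    · have h5 : clp p (1 : K₁ˣ) = clp p a := by
        rw [clp_eq]
        exact ⟨y, by rw [hy, one_mul]⟩
      rw [h5]
      exact ha4
  have hrange : (Set.range Φ)ᶜ.Finite := by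
    refine Set.Subsingleton.finite ?_
    rintro ⟨τ, ⟨b, hb⟩⟩ hx ⟨τ', ⟨b', hb'⟩⟩ hx'
    obtain ⟨h1, h2, h3⟩ := hexc _ hx
    obtain ⟨h1', h2', -⟩ := hexc _ hx'
    have h4 : τ = τ' := huq' 1 _ _ hom1 h3 h1 h1'
    have h5 : b = b' := h2.trans h2'.symm
    subst h4
    subst h5
    rfl
  have hcond : ∀ c : (BSet p K ε ∩ A : Set (ClP p K₁)),
      f c.1 = FT (Φ c).1 * n (Φ c).1 (Φ c).2 := by
    intro c
    have h := hwt (rt c) (ra c) (hra2 c) (hrt c)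
    rw [hra1 c] at h
    exact h
  have hbd : ∀ c ∈ {c : (BSet p K ε ∩ A : Set (ClP p K₁)) | c.1 ∈ Bd},
      (Φ c).2 ∈ bad (Φ c).1 := by
    intro c hcB
    exact hbad (rt c) (ra c) (by rw [hra1 c]; exact hcB) (hra2 c) (hrt c)
  obtain ⟨r1, ⟨C, X₀, hX₀, r2⟩, r3, r4⟩ := hABS F₀ β n bad FT g Kc c
    X₁ θ hFT hc hθ hg ha1 ha2 ha3 (BSet p K ε ∩ A : Set (ClP p K₁)) (fun c => f c.1)
    {c : (BSet p K ε ∩ A : Set (ClP p K₁)) | c.1 ∈ Bd} Φ hΦ hrange hcond hbd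
  have hset : ∀ X : ℝ, {c | c ∈ BSet p K ε ∩ A ∧ (f c : ℝ) ≤ X} =
      Subtype.val '' {c : (BSet p K ε ∩ A : Set (ClP p K₁)) | (f c.1 : ℝ) ≤ X} := by
    intro X
    ext c
    constructor
    · rintro ⟨h1, h2⟩
      exact ⟨⟨c, h1⟩, h2, rfl⟩
    · rintro ⟨c, h1, rfl⟩
      exact ⟨c.2, h1⟩
  have hset2 : ∀ X : ℝ, {c | c ∈ BSet p K ε ∩ A ∩ Bd ∧ (f c : ℝ) ≤ X} =
      Subtype.val '' {c : (BSet p K ε ∩ A : Set (ClP p K₁)) |
        c ∈ {c : (BSet p K ε ∩ A : Set (ClP p K₁)) | c.1 ∈ Bd} ∧ (f c.1 : ℝ) ≤ X} := by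
    intro X
    ext c
    constructor
    · rintro ⟨⟨h1, h3⟩, h2⟩
      exact ⟨⟨c, h1⟩, ⟨h3, h2⟩, rfl⟩
    · rintro ⟨c, ⟨h1, h2⟩, rfl⟩
      exact ⟨⟨c.2, h1⟩, h2⟩
  refine ⟨?_, ⟨C, X₀, hX₀, ?_⟩, ?_, ?_⟩
  · intro X
    rw [hset]
    exact (r1 X).image _
  · intro X hX
    unfold cV
    rw [hset, hset, Set.ncard_image_of_injective _ Subtype.val_injective,
      Set.ncard_image_of_injective _ Subtype.val_injective]
    exact r2 X hX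
  · exact Set.infinite_coe_iff.1 r3
  · intro η hη
    filter_upwards [r4 η hη] with X hX
    unfold cV
    rw [hset, hset2, Set.ncard_image_of_injective _ Subtype.val_injective,
      Set.ncard_image_of_injective _ Subtype.val_injective]
    exact hX

end core

/-- **W_MOMV**. -/
theorem w_momv : Pool.Agent.Helper42.PW.W_MOMV := by
  classical
  intro hABS hCND p hpF L K M K₁ M₁ _ _ _ _ _ _ _ _ _ _ _ _ _ ε δ P _ hs B V s0 g K₀ hslow θ hθ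
    S₀ A Bd f hS₀ hA hAne hf hE
  have hLAB : V_LAB := Pool.Agent.Helper42.PB.v_lab
  have hp : p.Prime := hpF.out
  have := hs.gK
  have := hs.st2
  have := hs.gMK
  have hG2 : IsGalois K₁ M₁ := IsGalois.tower_top_of_isGalois K K₁ M₁
  have hcop := hs.c2
  have hTRF : E_TRF := Pool.Agent.Helper40.RD.e_trf
  have hTAU : D_TAU := Pool.Agent.Helper15.PP.d_tau Pool.Agent.Helper74.PP.p_lfi
  obtain ⟨F₀, hF₀, huq⟩ := hTAU p K₁ (up K₁ B.S) (up_finite B.S)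
    {a : K₁ˣ | OmType p K ε (a : K₁) ∧ clp p a ∈ A}
  have hF₀1 : ∀ τ : F₀, OmType p K ε ((τ : K₁ˣ) : K₁) := fun τ => (hF₀ τ τ.2).1
  have hne : Nonempty F₀ := by
    obtain ⟨a, ha, haA⟩ := hAne
    obtain ⟨τ, ⟨h2, -⟩, -⟩ := huq a ⟨ha, haA⟩
    exact ⟨⟨τ, h2⟩⟩
  have hE' : ∀ τ : F₀, ∃ (n : ℕ) (E : TauF n B) (Kc c X₁ : ℝ), 0 < c ∧
      AnaN (sysB B E V s0 τ) g θ Kc c X₁ ∧
      ∀ a : K₁ˣ, clp p a ∈ Bd → OmType p K ε (a : K₁) →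
        LocS p (up K₁ B.S) (a / (τ : K₁ˣ)) → (sysB B E V s0 τ).Bad (B.lab a) := fun τ =>
    hE τ (hF₀1 τ) (hF₀ τ τ.2).2
  choose n E Kτ c X₁ hc hS hB using hE'
  have hL : ∀ τ : F₀, _ := fun τ => hLAB p ℂ_[p] L K M K₁ M₁ ε δ P hs B τ (n τ) (E τ)
    V s0 (hF₀1 τ)
  obtain ⟨Kc, c', X', hKc, hc', hcc, hX'⟩ := common (fun τ : F₀ => max K₀ (Kτ τ)) c X₁ hc
  obtain ⟨τ₀⟩ := hne
  have hne : Nonempty F₀ := ⟨τ₀⟩
  have hKc0 : Slow g Kc := slow_mono hslow ((le_max_left _ _).trans (hKc τ₀))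
  have hval : ∀ W : HeightOneSpectrum (𝓞 K₁), ∃ W' : HeightOneSpectrum (𝓞 M₁), Above W' W ∧
      ∀ x : K₁, ((p : ℤ) ∣ ordv W' (algebraMap K₁ M₁ x) ↔ (p : ℤ) ∣ ordv W x) := by
    intro W
    obtain ⟨W', hW'⟩ := exists_above' (E := M₁) W
    exact ⟨W', hW', (hTRF p K₁ M₁ hcop W' W hW').1⟩
  have hval1 : ∀ a : K₁ˣ, OmType p K ε (a : K₁) → ∀ v ∈ B.calP,
      ∀ W : HeightOneSpectrum (𝓞 K₁), Above W v →
      ((p : ℤ) ∣ ordv W (a : K₁) ↔ ordp p (B.Q v) a = 0) := by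
    intro a ha v hv W hW
    obtain ⟨W', hW', hx⟩ := hval W
    rw [← hx]
    exact ((hL τ₀).1 a ha).2.1 v hv W' (above_trans hW hW')
  have hval2 : ∀ a : K₁ˣ, OmType p K ε (a : K₁) → ∀ v ∉ B.S, v ∉ B.calP →
      ∀ W : HeightOneSpectrum (𝓞 K₁), Above W v → (p : ℤ) ∣ ordv W (a : K₁) := by
    intro a ha v hv hv' W hW
    obtain ⟨W', hW', hx⟩ := hval W
    rw [← hx]
    exact ((hL τ₀).1 a ha).2.2.1 v hv hv' W' (above_trans hW hW')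
  have hFT : ∀ τ : F₀, ∃ F : ℕ, 1 ≤ F ∧ ∀ a : K₁ˣ, OmType p K ε (a : K₁) →
      LocS p (up K₁ B.S) (a / (τ : K₁ˣ)) →
      f (clp p a) = F * ∏ q ∈ B.lab a, Ideal.absNorm q.1.1.asIdeal := by
    intro τ
    obtain ⟨F, hF1, hF2⟩ := hCND p K K₁ ε S₀ B.S B.calP B.Q τ f hS₀ (fun v hv => hv.1)
      (fun v hv => (B.Qa v hv).1) hf (hF₀1 τ)
    exact ⟨F, hF1, fun a ha hl => hF2 a (B.lab a) ha hl (hval1 a ha)
      (fun v hv hv' W hW => hval2 a ha v hv hv' W hW)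
      (Pool.Agent.Helper11.PP.mem_lab B ((hL τ₀).1 a ha).1)⟩
  choose FT hFT1 hFT2 using hFT
  have e1 : ∀ (τ : F₀) (X : ℝ), {b : {b : Finset B.LP // (sysB B (E τ) V s0 τ).Fam b} |
        ((∏ q ∈ b.1, Ideal.absNorm q.1.1.asIdeal : ℕ) : ℝ) ≤ X}.ncard =
      {b | (sysB B (E τ) V s0 τ).Fam b ∧ ((sysB B (E τ) V s0 τ).nm b : ℝ) ≤ X}.ncard :=
    fun τ X => sub_card (P := fun b => (sysB B (E τ) V s0 τ).Fam b)
      (f := (sysB B (E τ) V s0 τ).nm)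
  have e2 : ∀ (τ : F₀) (X : ℝ), {b : {b : Finset B.LP // (sysB B (E τ) V s0 τ).Fam b} |
        b ∈ {b : {b : Finset B.LP // (sysB B (E τ) V s0 τ).Fam b} |
          (sysB B (E τ) V s0 τ).Bad b.1} ∧
        ((∏ q ∈ b.1, Ideal.absNorm q.1.1.asIdeal : ℕ) : ℝ) ≤ X}.ncard =
      {b | (sysB B (E τ) V s0 τ).Fam b ∧ (sysB B (E τ) V s0 τ).Bad b ∧
        ((sysB B (E τ) V s0 τ).nm b : ℝ) ≤ X}.ncard :=
    fun τ X => sub_card2 (P := fun b => (sysB B (E τ) V s0 τ).Fam b)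
      (Q := fun b => (sysB B (E τ) V s0 τ).Bad b) (f := (sysB B (E τ) V s0 τ).nm)
  exact coreV B hABS S₀ hS₀ A hA f F₀ hne (fun c hc => hF₀ c hc) (fun a h1 h2 => huq a ⟨h1, h2⟩)
    (fun τ b => (sysB B (E τ) V s0 τ).Fam b)
    (fun τ b => (sysB B (E τ) V s0 τ).Bad b)
    (fun τ a ha hl => ((hL τ).1 a ha).2.2.2 hl)
    (fun τ b hb => (hL τ).2.1 b hb)
    (fun τ a a' ha ha' hl hl' hlab => (hL τ).2.2.1 a a' ha ha' hl hl' hlab)
    Bd (fun τ a hcB ha hl => hB τ a hcB ha hl) FT hFT1 hFT2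
    g Kc c' X' θ hc' hθ hKc0
    (fun τ X hX => by
      obtain ⟨h1, h2⟩ := (hS τ).1 X hX
      refine ⟨sub_fin h1, ?_⟩
      rw [e1]
      refine h2.trans ?_
      refine mul_le_mul_of_nonneg_right ((le_max_right _ _).trans (hKc τ)) ?_
      exact mul_nonneg hX.le (zero_le_one.trans (hslow.one X)))
    (fun τ X hX hX1 => by
      rw [e1]
      refine le_trans ?_ ((hS τ).2.1 X hX ((hX' τ).trans hX1))
      refine mul_le_mul_of_nonneg_right (hcc τ) ?_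
      exact mul_nonneg hX.le (zero_le_one.trans (hslow.one X)))
    (fun η hη => by
      have h1 : ∀ τ : F₀, _ := fun τ => (hS τ).2.2 η hη
      choose X₀ hX₀ using h1
      refine ⟨∑ τ, |X₀ τ|, fun τ X hX => ?_⟩
      rw [e1, e2]
      exact hX₀ τ X (((le_abs_self _).trans (Finset.single_le_sum (f := fun τ => |X₀ τ|)
        (fun i _ => abs_nonneg _) (Finset.mem_univ τ))).trans hX))

end Pool.Agent.Helper87.PW
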